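import Pool.Agent.MP_d20a68_co.Mad.Prob

/-! The decomposition into bipartite levels. -/

set_option autoImplicit false
set_option linter.unusedSectionVars false
set_option linter.unusedVariables false
open Finset
open scoped Classical

namespace Pool.Agent.MP_d20a68_co.Mad

open Pool.Agent.MP_d20a68_co Pool.Agent.MP_d20a68_co.Poly

variable {V : Type} [Fintype V]

lemma dg_inn_out {G P : SimpleGraph V} (hP : P ≤ G) {o : V → V → Prop}
    (ho : ∀ u v, G.Adj u v → (o u v ↔ ¬ o v u)) (v : V) :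
    dg P v = (inn P o v).card + (out P o v).card := by
  rw [← card_union_of_disjoint (disjoint_left.2 fun u h1 h2 =>
    (ho u v (hP (mem_inn.1 h1).1).symm).1 (mem_inn.1 h1).2 (mem_out.1 h2).2)]
  unfold dg
  congr 1
  ext u
  rw [mem_union, mem_inn, mem_out, mem_nb]
  refine ⟨fun h => ?_, fun h => h.elim And.left And.left⟩
  by_cases e : o v u
  · exact Or.inr ⟨h, e⟩
  · exact Or.inl ⟨h, (ho u v (hP h).symm).2 e⟩

/-- One level with explicit parameters. -/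
lemma level2 (G F P : SimpleGraph V) (hP : P ≤ G) (σ : V → Bool) (hσ : Cross P σ)
    (o : V → V → Prop) (ho : ∀ u v, G.Adj u v → (o u v ↔ ¬ o v u)) (k d : ℕ)
    (hk : 0 < k) (hD : ∀ v, dg G v ≤ k) (f η a ρ : ℝ)
    (hout : ∀ v, 2 * ((out G o v).card : ℝ) ≤ k - f + 1) (ha : 0 ≤ a) (hρ : 0 < ρ)
    (d1 : (a + ρ / 4) * k ≤ d) (d2 : (d : ℝ) ≤ (a + 3 * ρ / 4) * k) (hη : η ≤ ρ * k / 4)
    (hf : 1 + 7 * η / 2 ≤ ρ * (f - 1) / 4)
    (cF : ∀ v, |(dg F v : ℝ) - a * dg G v| ≤ η)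
    (cI : ∀ v, |((inn P o v).card : ℝ) - ρ * (inn G o v).card| ≤ η)
    (cO : ∀ v, |((out P o v).card : ℝ) - ρ * (out G o v).card| ≤ η) :
    ∃ H ≤ P, ∀ v, dg F v + dg H v ≤ d ∧
      d ≤ dg F v + dg H v + ⌊((k : ℝ) - dg G v) * (a + ρ)⌋₊ := by
  have hk' : (0 : ℝ) < k := by exact_mod_cast hk
  set x : ℝ := ((d : ℝ) / k - a) / ρ with hx
  have hd : (d : ℝ) = (a + x * ρ) * k := by
    rw [hx]
    field_simp
    ring
  have x1 : 1 / 4 ≤ x := by
    have : (a + ρ / 4) * k ≤ (a + x * ρ) * k := hd ▸ d1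
    have := le_of_mul_le_mul_right this hk'
    by_contra h
    nlinarith
  have x2 : x ≤ 3 / 4 := by
    have : (a + x * ρ) * k ≤ (a + 3 * ρ / 4) * k := hd ▸ d2
    have := le_of_mul_le_mul_right this hk'
    by_contra h
    nlinarith
  have hs : ∀ v, (0 : ℝ) ≤ k - dg G v := fun v => sub_nonneg.2 (by exact_mod_cast hD v)
  have hFd : ∀ v, dg F v ≤ d := fun v => by
    have b1 := (abs_le.1 (cF v)).2
    have b2 := mul_nonneg ha (hs v)
    have : (dg F v : ℝ) ≤ d := by nlinarith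
    exact_mod_cast this
  have hPd : ∀ v, |x * dg P v - x * ρ * dg G v| ≤ 2 * η := fun v => by
    have b1 := abs_le.1 (cI v)
    have b2 := abs_le.1 (cO v)
    rw [dg_inn_out hP ho v, dg_inn_out le_rfl ho v, abs_le]
    push_cast
    constructor <;> nlinarith [b1.1, b1.2, b2.1, b2.2]
  obtain ⟨H, h1, h2⟩ := level P σ hσ o x x1 x2
    (fun v => (d : ℤ) - ⌊((k : ℝ) - dg G v) * (a + ρ)⌋₊ - dg F v) (fun v => d - dg F v)
    (fun v => ρ * (k - dg G v) / 4 - 1 - 3 * η)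
    (fun v => by have := hFd v; omega)
    (fun v => by
      have b1 := (abs_le.1 (cF v)).1
      have b2 := (abs_le.1 (hPd v)).1
      have b3 := Nat.lt_floor_add_one (((k : ℝ) - dg G v) * (a + ρ))
      have b4 := mul_nonneg (mul_nonneg hρ.le (hs v)) (sub_nonneg.2 x2)
      push_cast
      rw [hd]
      nlinarith)
    (fun v => by
      have b1 := (abs_le.1 (cF v)).2
      have b2 := (abs_le.1 (hPd v)).2
      have b3 := mul_nonneg ha (hs v)
      have b4 := mul_nonneg (mul_nonneg hρ.le (hs v)) (sub_nonneg.2 x1)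
      rw [Nat.cast_sub (hFd v), hd]
      nlinarith)
    (fun v => by
      have b1 := (abs_le.1 (cI v)).1
      have b2 := (abs_le.1 (cO v)).2
      have b3 : (dg G v : ℝ) = (inn G o v).card + (out G o v).card := by
        exact_mod_cast dg_inn_out le_rfl ho v
      have b4 := mul_le_mul_of_nonneg_left (hout v) hρ.le
      rw [b3]
      nlinarith)
  refine ⟨H, h1, fun v => ?_⟩
  have b1 := h2 v
  have b2 := hFd v
  omega

theorem core {J : Type} [Fintype J] (G : SimpleGraph V) (k : ℕ) (hk : 0 < k)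
    (hD : ∀ v, dg G v ≤ k) (o : V → V → Prop) (ho : ∀ u v, G.Adj u v → (o u v ↔ ¬ o v u))
    (f η ρ0 : ℝ) (hout : ∀ v, 2 * ((out G o v).card : ℝ) ≤ k - f + 1) (F P : J → SimpleGraph V)
    (hF : ∀ j, F j ≤ G) (hP : ∀ j, P j ≤ G)
    (u1 : ∀ j j' u v, (F j ⊔ P j).Adj u v → (F j' ⊔ P j').Adj u v → j = j')
    (u2 : ∀ j u v, (F j).Adj u v → ¬ (P j).Adj u v) (σ : Option J → V → Bool)
    (c1 : ∀ j, Cross (F j ⊔ P j) (σ (some j)))
    (c0 : ∀ u v, G.Adj u v → (∀ j, ¬ (F j).Adj u v) → σ none u ≠ σ none v) (a ρ : J → ℝ)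
    (ha : ∀ j, 0 ≤ a j) (hρ0 : 0 < ρ0) (hρ : ∀ j, ρ0 ≤ ρ j) (hsum : ∑ j, (a j + ρ j) ≤ 1)
    (hη : η ≤ ρ0 * k / 4) (hf1 : 1 ≤ f) (hf : 1 + 7 * η / 2 ≤ ρ0 * (f - 1) / 4)
    (cF : ∀ j v, |(dg (F j) v : ℝ) - a j * dg G v| ≤ η)
    (cI : ∀ j v, |((inn (P j) o v).card : ℝ) - ρ j * (inn G o v).card| ≤ η)
    (cO : ∀ j v, |((out (P j) o v).card : ℝ) - ρ j * (out G o v).card| ≤ η)
    {q : ℕ} (p : Fin q → ℕ) (s : ℕ) (hp : ∀ i, p i ≤ s) (hs : (s : ℝ) + 1 ≤ ρ0 * k / 2)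
    (hpk : ∑ i, p i = k) (c : ℕ → Fin q) (L : G.edgeSet → Finset ℕ)
    (hL : ∀ e i, p i ≤ ((L e).filter (fun x => c x = i)).card) : ColL G c L G univ := by
  have hk' : (0 : ℝ) < k := by exact_mod_cast hk
  have hρk : ∀ j, ρ0 * k ≤ ρ j * k := fun j => mul_le_mul_of_nonneg_right (hρ j) hk'.le
  have hlo : ∀ j, ((⌈(a j + ρ j / 4) * k⌉₊ + s : ℕ) : ℝ) ≤ (a j + 3 * ρ j / 4) * k := fun j => by
    have b0 : 0 ≤ ρ j := hρ0.le.trans (hρ j)
    have b1 := Nat.ceil_lt_add_one (a := (a j + ρ j / 4) * k) (by have := ha j; positivity)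
    have b2 := hρk j
    push_cast
    nlinarith
  obtain ⟨I, I1, I2⟩ := group p s hp (fun j => ⌈(a j + ρ j / 4) * k⌉₊) (by
    have b1 : ∑ j, ((⌈(a j + ρ j / 4) * k⌉₊ + s : ℕ) : ℝ) ≤ ∑ j, (a j + ρ j) * k :=
      sum_le_sum fun j _ => (hlo j).trans (by
        have b0 : 0 ≤ ρ j := hρ0.le.trans (hρ j)
        nlinarith)
    rw [← sum_mul] at b1
    have b2 : ∑ j, ((⌈(a j + ρ j / 4) * k⌉₊ + s : ℕ) : ℝ) ≤ k := by nlinarith
    rw [hpk]
    exact_mod_cast b2)
  have h : ∀ j, ∃ H ≤ P j, ∀ v, dg (F j) v + dg H v ≤ ∑ i ∈ I j, p i ∧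
      ∑ i ∈ I j, p i ≤ dg (F j) v + dg H v + ⌊((k : ℝ) - dg G v) * (a j + ρ j)⌋₊ := fun j =>
    level2 G (F j) (P j) (hP j) (σ (some j)) (fun u v h => c1 j u v (Or.inr h)) o ho k _ hk hD f η
      (a j) (ρ j) hout (ha j) (hρ0.trans_le (hρ j))
      ((Nat.le_ceil _).trans (by exact_mod_cast (I2 j).1))
      (le_trans (by exact_mod_cast (I2 j).2) (hlo j)) (by have := hρk j; linarith)
      (by have := mul_le_mul_of_nonneg_right (hρ j) (sub_nonneg.2 hf1); linarith)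
      (cF j) (cI j) (cO j)
  choose H H1 H2 using h
  have hB : ∀ j, F j ⊔ H j ≤ F j ⊔ P j := fun j => sup_le_sup_left (H1 j) _
  have hBd : ∀ j v, dg (F j ⊔ H j) v = dg (F j) v + dg (H j) v := fun j v =>
    dg_sup (fun u w h1 h2 => u2 j u w h1 (H1 j h2)) v
  let lev : V → V → Option J := fun u v =>
    if h : ∃ j, (F j ⊔ H j).Adj u v then some h.choose else none
  have l1 : ∀ u v j, lev u v = some j ↔ (F j ⊔ H j).Adj u v := fun u v j => by
    by_cases h : ∃ j, (F j ⊔ H j).Adj u v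
    · simp only [lev, dif_pos h, Option.some.injEq]
      exact ⟨fun e => e ▸ h.choose_spec, fun e => u1 _ _ u v (hB _ h.choose_spec) (hB _ e)⟩
    · simp only [lev, dif_neg h]
      exact ⟨fun e => absurd e (by simp), fun e => absurd ⟨j, e⟩ h⟩
  have l2 : ∀ u v, lev u v = lev v u := fun u v => by
    refine Option.ext fun j => ?_
    rw [l1, l1, SimpleGraph.adj_comm]
  have hI : ∑ j, ∑ i ∈ I j, p i + ∑ i ∈ univ \ univ.biUnion I, p i = k := by
    rw [← sum_biUnion fun j _ j' _ hj => I1 j j' hj, add_comm, sum_sdiff (subset_univ _), hpk]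
  refine assemble G p c L hL lev (fun u v _ => l2 u v)
    (fun b => b.elim (univ \ univ.biUnion I) I) ?_ σ ?_ ?_
  · have key : ∀ j, Disjoint (univ \ univ.biUnion I) (I j) := fun j =>
      disjoint_left.2 fun i h1 h2 => (mem_sdiff.1 h1).2 (mem_biUnion.2 ⟨j, mem_univ _, h2⟩)
    rintro (_ | j) (_ | j') hne
    · exact absurd rfl hne
    · exact key j'
    · exact (key j).symm
    · exact I1 j j' fun e => hne (by rw [e])
  · rintro (_ | j) u v huv
    · refine c0 u v huv.1 fun j hj => ?_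
      have := (l1 u v j).2 (Or.inl hj)
      rw [huv.2.1] at this
      exact absurd this (by simp)
    · exact c1 j u v (hB j ((l1 u v j).1 huv.2.1))
  · rintro (_ | j) v
    · have b1 : dg G v = ∑ b : Option J, ((nb G v).filter fun u => lev v u = b).card :=
        card_eq_sum_card_fiberwise fun _ _ => mem_coe.2 (mem_univ _)
      rw [Fintype.sum_option] at b1
      have b2 : dg (atLev G lev none) v ≤ ((nb G v).filter fun u => lev v u = none).card :=
        card_le_card fun u hu => mem_filter.2 ⟨mem_nb.2 (mem_nb.1 hu).1, (mem_nb.1 hu).2.1⟩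
      have b3 : ∑ j, ∑ i ∈ I j, p i ≤ ∑ j, ((nb G v).filter fun u => lev v u = some j).card +
          ∑ j, ⌊((k : ℝ) - dg G v) * (a j + ρ j)⌋₊ := by
        rw [← sum_add_distrib]
        refine sum_le_sum fun j _ => (H2 j v).2.trans (Nat.add_le_add_right ?_ _)
        rw [← hBd]
        exact card_le_card fun u hu => mem_filter.2
          ⟨mem_nb.2 (sup_le (hF j) ((H1 j).trans (hP j)) (mem_nb.1 hu)), (l1 v u j).2 (mem_nb.1 hu)⟩
      have b4 : ∑ j, ⌊((k : ℝ) - dg G v) * (a j + ρ j)⌋₊ + dg G v ≤ k := by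
        have e0 : (0 : ℝ) ≤ k - dg G v := sub_nonneg.2 (by exact_mod_cast hD v)
        have e1 : ∑ j, (⌊((k : ℝ) - dg G v) * (a j + ρ j)⌋₊ : ℝ) ≤
            ∑ j, ((k : ℝ) - dg G v) * (a j + ρ j) := sum_le_sum fun j _ => Nat.floor_le
          (mul_nonneg e0 (add_nonneg (ha j) (hρ0.le.trans (hρ j))))
        rw [← mul_sum] at e1
        have e2 : ∑ j, (⌊((k : ℝ) - dg G v) * (a j + ρ j)⌋₊ : ℝ) + dg G v ≤ k := by
          nlinarith [mul_le_mul_of_nonneg_left hsum e0]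
        exact_mod_cast e2
      show dg (atLev G lev none) v ≤ ∑ i ∈ univ \ univ.biUnion I, p i
      omega
    · show dg (atLev G lev (some j)) v ≤ ∑ i ∈ I j, p i
      refine le_trans (dg_mono (H := atLev G lev (some j)) (H' := F j ⊔ H j)
        (fun u w h => (l1 u w j).1 h.2.1) v) ?_
      rw [hBd]
      exact (H2 j v).1

end Pool.Agent.MP_d20a68_co.Mad
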