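import Pool.Agent.Mg.Fd20a68.Gf90942

/-! Deterministic tools: degree constrained subgraphs, orientations, grouping, assembling. -/

set_option autoImplicit false
set_option linter.unusedSectionVars false
set_option linter.unusedVariables false
open Finset
open scoped Classical

namespace Pool.Agent.MP_d20a68_co.Mad

open Pool.Agent.MP_d20a68_co Pool.Agent.MP_d20a68_co.Poly

variable {V : Type} [Fintype V]

/-- Hoffman's theorem on degree constrained subgraphs of bipartite graphs. -/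
theorem factorZ (B : SimpleGraph V) (σ : V → Bool) (g : V → ℤ) (d : V → ℕ) (hσ : Cross B σ)
    (hgd : ∀ v, g v ≤ d v)
    (hall : ∀ (s : Bool) (X Y : Finset V), (∀ x ∈ X, σ x = s) → (∀ y ∈ Y, σ y ≠ s) →
      ∑ x ∈ X, g x ≤ ∑ y ∈ Y, (d y : ℤ) + eout B X Y) :
    ∃ F ≤ B, ∀ v, g v ≤ dg F v ∧ dg F v ≤ d v := by
  obtain ⟨F, ⟨hFB, hFd⟩, hmin⟩ :=
    (measure fun F : SimpleGraph V => ∑ v, (g v - dg F v).toNat).wf.has_min
    {F | F ≤ B ∧ ∀ v, dg F v ≤ d v} ⟨⊥, bot_le, fun v => by rw [dg_bot]; exact Nat.zero_le _⟩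
  refine ⟨F, hFB, fun x => ⟨not_lt.1 fun hx => ?_, hFd x⟩⟩
  have key : ∀ F' ≤ B, (∀ v, dg F' v ≤ d v) →
      (∀ v, (g v - dg F' v).toNat ≤ (g v - dg F v).toNat) → dg F x < dg F' x → False :=
    fun F' a1 a2 a3 a4 =>
      hmin F' ⟨a1, a2⟩ (sum_lt_sum (fun v _ => a3 v) ⟨x, mem_univ _, by omega⟩)
  obtain ⟨⟨X, Y⟩, hp, hmax⟩ := exists_max_image
    (univ.filter fun p : Finset V × Finset V => GoodP4 B F σ x p.1 p.2)
    (fun p => p.1.card + p.2.card) ⟨({x}, ∅), mem_filter.2 ⟨mem_univ _, mem_singleton_self _,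
      fun u hu => by rw [mem_singleton.1 hu], fun y hy => absurd hy (notMem_empty _),
      fun u hu => ⟨F, hFB, fun _ _ _ => Iff.rfl, fun v => by rw [mem_singleton.1 hu]⟩,
      fun y hy => absurd hy (notMem_empty _)⟩⟩
  have h : GoodP4 B F σ x X Y := (mem_filter.1 hp).2
  have c1 : ∀ u ∈ X, ∀ y, y ∉ Y → B.Adj u y → F.Adj u y := fun u hu y hy hB => by
    by_contra hF
    have := hmax (X, insert y Y) (mem_filter.2 ⟨mem_univ _, h.addY hσ hu hy hB hF⟩)
    simp only [card_insert_of_notMem hy] at this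
    omega
  have c2 : ∀ y ∈ Y, ∀ u, F.Adj y u → u ∈ X := fun y hy u hF => by
    by_contra hu
    have := hmax (insert u X, Y) (mem_filter.2 ⟨mem_univ _, h.addX hσ hFB hu hy hF⟩)
    simp only [card_insert_of_notMem hu] at this
    omega
  have c3 : ∀ y ∈ Y, d y ≤ dg F y := fun y hy => not_lt.1 fun hlt => by
    obtain ⟨F', a1, -, a3⟩ := h.fY y hy
    have hne : x ≠ y := fun e => h.sY y hy (by rw [e])
    refine key F' a1 (fun v => ?_) (fun v => ?_) ?_
    · have := hFd v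
      have := hgd v
      rw [a3]
      split_ifs with e1 e2 e2
      · exact absurd (e1.symm.trans e2) hne
      · subst e1; omega
      · subst e2; omega
      · omega
    · rw [a3]; omega
    · rw [a3, if_pos rfl]; omega
  have c4 : ∀ u ∈ X, (dg F u : ℤ) ≤ g u := fun u hu => not_lt.1 fun hlt => by
    obtain ⟨F', a1, -, a3⟩ := h.fX u hu
    have hne : x ≠ u := fun e => by rw [← e] at hlt; omega
    refine key F' a1 (fun v => ?_) (fun v => ?_) ?_
    · have a4 := hFd v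
      have a5 := a3 v
      have a6 := hgd v
      split_ifs at a5 with e1 e2 e2
      · omega
      · omega
      · subst e2; omega
      · omega
    · have a5 := a3 v
      split_ifs at a5 with e1 e2 e2
      · omega
      · subst e1; omega
      · omega
      · omega
    · have a5 := a3 x
      rw [if_neg hne, if_pos rfl] at a5
      omega
  have c5 : ∑ u ∈ X, (dg F u : ℤ) < ∑ u ∈ X, g u := sum_lt_sum c4 ⟨x, h.mem, hx⟩
  have c6 : ∑ y ∈ Y, d y ≤ ∑ u ∈ X, (Y.filter (F.Adj u)).card := by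
    rw [sum_card_comm]
    refine sum_le_sum fun y hy => (c3 y hy).trans (card_le_card fun u hu => ?_)
    exact mem_filter.2 ⟨c2 y hy u (mem_nb.1 hu), mem_nb.1 hu⟩
  have c7 : ∑ u ∈ X, (Y.filter (F.Adj u)).card + eout B X Y ≤ ∑ u ∈ X, dg F u := by
    unfold eout
    rw [← sum_add_distrib]
    refine sum_le_sum fun u hu => ?_
    rw [← card_union_of_disjoint (disjoint_left.2 fun y h1 h2 =>
      (mem_filter.1 h2).2.2 (mem_filter.1 h1).1)]
    refine card_le_card fun y hy => mem_nb.2 ?_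
    rcases mem_union.1 hy with e | e
    · exact (mem_filter.1 e).2
    · exact c1 u hu y (mem_filter.1 e).2.2 (mem_filter.1 e).2.1
  have h1 := hall (σ x) X Y h.sX h.sY
  have h2 : ∑ y ∈ Y, d y + eout B X Y ≤ ∑ u ∈ X, dg F u := by omega
  have h3 : ((∑ y ∈ Y, d y + eout B X Y : ℕ) : ℤ) ≤ ((∑ u ∈ X, dg F u : ℕ) : ℤ) := by
    exact_mod_cast h2
  push_cast at h3
  linarith

/-- The neighbours `u` of `v` with `o u v`. -/
noncomputable def inn (P : SimpleGraph V) (o : V → V → Prop) (v : V) : Finset V :=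
  (nb P v).filter fun u => o u v

/-- The neighbours `u` of `v` with `o v u`. -/
noncomputable def out (P : SimpleGraph V) (o : V → V → Prop) (v : V) : Finset V :=
  (nb P v).filter fun u => o v u

lemma mem_inn {P : SimpleGraph V} {o : V → V → Prop} {v u : V} :
    u ∈ inn P o v ↔ P.Adj v u ∧ o u v := by simp [inn]

lemma mem_out {P : SimpleGraph V} {o : V → V → Prop} {v u : V} :
    u ∈ out P o v ↔ P.Adj v u ∧ o v u := by simp [out]

lemma dg_split (P : SimpleGraph V) (X Y : Finset V) :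
    ∑ x ∈ X, dg P x = ∑ x ∈ X, (Y.filter (P.Adj x)).card + eout P X Y := by
  unfold eout
  rw [← sum_add_distrib]
  refine sum_congr rfl fun x _ => ?_
  rw [← card_union_of_disjoint (disjoint_left.2 fun y h1 h2 =>
    (mem_filter.1 h2).2.2 (mem_filter.1 h1).1)]
  unfold dg
  congr 1
  ext y
  by_cases hy : y ∈ Y <;> simp [hy]

lemma inn_le (P : SimpleGraph V) (o : V → V → Prop) (A : Finset V) :
    ∑ v ∈ A, (inn P o v).card ≤ ∑ v ∈ A, (out P o v).card + eout P A A := by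
  have h1 : ∑ v ∈ A, (inn P o v).card ≤
      ∑ v ∈ A, (A.filter fun u => P.Adj v u ∧ o u v).card + eout P A A := by
    unfold eout
    rw [← sum_add_distrib]
    refine sum_le_sum fun v _ => le_trans (card_le_card fun u hu => ?_) (card_union_le _ _)
    have h := mem_filter.1 hu
    by_cases hA : u ∈ A
    · exact mem_union_left _ (mem_filter.2 ⟨hA, mem_nb.1 h.1, h.2⟩)
    · exact mem_union_right _ (mem_filter.2 ⟨mem_univ _, mem_nb.1 h.1, hA⟩)
  have h2 : ∑ v ∈ A, (A.filter fun u => P.Adj v u ∧ o u v).card =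
      ∑ u ∈ A, (A.filter fun v => P.Adj v u ∧ o u v).card := by
    simp only [card_filter]
    rw [sum_comm]
  have h3 : ∑ u ∈ A, (A.filter fun v => P.Adj v u ∧ o u v).card ≤ ∑ v ∈ A, (out P o v).card :=
    sum_le_sum fun u _ => card_le_card fun v hv =>
      mem_filter.2 ⟨mem_nb.2 (mem_filter.1 hv).2.1.symm, (mem_filter.1 hv).2.2⟩
  omega

lemma eout_union (P : SimpleGraph V) {X Y : Finset V} (h : Disjoint X Y) :
    eout P (X ∪ Y) (X ∪ Y) ≤ eout P X Y + eout P Y X := by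
  unfold eout
  rw [sum_union h]
  refine Nat.add_le_add (sum_le_sum fun x _ => card_le_card fun y hy => ?_)
    (sum_le_sum fun x _ => card_le_card fun y hy => ?_)
  · have := (mem_filter.1 hy).2
    exact mem_filter.2 ⟨mem_univ _, this.1, fun e => this.2 (mem_union_right _ e)⟩
  · have := (mem_filter.1 hy).2
    exact mem_filter.2 ⟨mem_univ _, this.1, fun e => this.2 (mem_union_left _ e)⟩

/-- One level: the errors are pushed along the orientation. -/
theorem level (P : SimpleGraph V) (σ : V → Bool) (hσ : Cross P σ) (o : V → V → Prop) (x : ℝ)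
    (hx : 1 / 4 ≤ x) (hx' : x ≤ 3 / 4) (g : V → ℤ) (d : V → ℕ) (μ : V → ℝ)
    (hgd : ∀ v, g v ≤ d v) (hg : ∀ v, (g v : ℝ) + μ v ≤ x * dg P v)
    (hd : ∀ v, x * dg P v + μ v ≤ d v)
    (hio : ∀ v, 0 ≤ μ v + (((inn P o v).card : ℝ) - (out P o v).card) / 4) :
    ∃ F ≤ P, ∀ v, g v ≤ dg F v ∧ dg F v ≤ d v := by
  refine factorZ P σ g d hσ hgd fun s X Y hX hY => ?_
  have hdis : Disjoint X Y := disjoint_left.2 fun v h1 h2 => hY v h2 (hX v h1)
  have a1 : ∑ v ∈ X, (g v : ℝ) + ∑ v ∈ X, μ v ≤ x * ∑ v ∈ X, (dg P v : ℝ) := by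
    rw [← sum_add_distrib, mul_sum]
    exact sum_le_sum fun v _ => hg v
  have a2 : x * ∑ v ∈ Y, (dg P v : ℝ) + ∑ v ∈ Y, μ v ≤ ∑ v ∈ Y, (d v : ℝ) := by
    rw [mul_sum, ← sum_add_distrib]
    exact sum_le_sum fun v _ => hd v
  have a3 : 0 ≤ ∑ v ∈ X ∪ Y, μ v + ((∑ v ∈ X ∪ Y, ((inn P o v).card : ℝ)) -
      ∑ v ∈ X ∪ Y, ((out P o v).card : ℝ)) / 4 := by
    rw [← sum_sub_distrib, sum_div, ← sum_add_distrib]
    exact sum_nonneg fun v _ => hio v
  have a4 : ∑ v ∈ X ∪ Y, ((inn P o v).card : ℝ) ≤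
      ∑ v ∈ X ∪ Y, ((out P o v).card : ℝ) + ((eout P X Y : ℝ) + eout P Y X) := by
    exact_mod_cast (inn_le P o (X ∪ Y)).trans (Nat.add_le_add_left (eout_union P hdis) _)
  have a5 : ∑ v ∈ X, (dg P v : ℝ) =
      ((∑ x ∈ X, (Y.filter (P.Adj x)).card : ℕ) : ℝ) + eout P X Y := by
    exact_mod_cast dg_split P X Y
  have a6 : ∑ v ∈ Y, (dg P v : ℝ) =
      ((∑ x ∈ X, (Y.filter (P.Adj x)).card : ℕ) : ℝ) + eout P Y X := by
    rw [sum_card_comm]
    exact_mod_cast dg_split P Y X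
  rw [sum_union hdis] at a3
  have b1 : (0 : ℝ) ≤ eout P X Y := Nat.cast_nonneg _
  have b2 : (0 : ℝ) ≤ eout P Y X := Nat.cast_nonneg _
  have a7 : ∑ v ∈ X, (g v : ℝ) ≤ ∑ v ∈ Y, (d v : ℝ) + eout P X Y := by
    rw [a5] at a1
    rw [a6] at a2
    nlinarith [mul_nonneg (sub_nonneg.2 hx) b2, mul_nonneg (sub_nonneg.2 hx') b1]
  exact_mod_cast a7

/-- An orientation with bounded out-degree. -/
theorem orient (G : SimpleGraph V) (D : ℕ)
    (h : ∀ A : Finset V, {e | e ∈ G.edgeSet ∧ ∀ v ∈ e, v ∈ A}.ncard ≤ A.card * D) :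
    ∃ o : V → V → Prop, (∀ u v, G.Adj u v → (o u v ↔ ¬ o v u)) ∧ ∀ v, (out G o v).card ≤ D := by
  obtain ⟨t, ht, hm⟩ := (Finset.all_card_le_biUnion_card_iff_exists_injective
    (fun e : G.edgeSet => (univ.filter fun v : V => v ∈ e.1) ×ˢ (univ : Finset (Fin D)))).1 (by
      intro s
      set A := s.biUnion fun e : G.edgeSet => univ.filter fun v : V => v ∈ e.1 with hA
      have h1 : s.card ≤ {e | e ∈ G.edgeSet ∧ ∀ v ∈ e, v ∈ A}.ncard := by
        rw [← Set.ncard_coe_finset]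
        refine Set.ncard_le_ncard_of_injOn (fun e => e.1) (fun e he => ⟨e.2, fun v hv => ?_⟩)
          (fun e _ e' _ hh => Subtype.ext hh) (Set.toFinite _)
        exact mem_biUnion.2 ⟨e, he, mem_filter.2 ⟨mem_univ _, hv⟩⟩
      refine h1.trans ((h A).trans ?_)
      have h2 : A.card * D = (A ×ˢ (univ : Finset (Fin D))).card := by
        rw [card_product, card_univ, Fintype.card_fin]
      rw [h2]
      refine card_le_card fun z hz => ?_
      obtain ⟨e, he, hv⟩ := mem_biUnion.1 (mem_product.1 hz).1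
      exact mem_biUnion.2 ⟨e, he, mem_product.2 ⟨hv, mem_univ _⟩⟩)
  have hm' : ∀ e, (t e).1 ∈ e.1 := fun e => (mem_filter.1 (mem_product.1 (hm e)).1).2
  refine ⟨fun u v => ∃ hh : G.Adj u v, (t ⟨s(u, v), hh⟩).1 = u, fun u v huv => ?_, fun v => ?_⟩
  · have e1 : (⟨s(v, u), huv.symm⟩ : G.edgeSet) = ⟨s(u, v), huv⟩ := Subtype.ext Sym2.eq_swap
    constructor
    · rintro ⟨_, h1⟩ ⟨_, h2⟩
      rw [e1] at h2
      exact huv.ne (h1.symm.trans h2)
    · intro h1
      rcases Sym2.mem_iff.1 (hm' ⟨s(u, v), huv⟩) with h2 | h2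
      · exact ⟨huv, h2⟩
      · exact absurd ⟨huv.symm, by rw [e1]; exact h2⟩ h1
  · have h1 : ∀ u ∈ out G (fun u v => ∃ hh : G.Adj u v, (t ⟨s(u, v), hh⟩).1 = u) v,
        ∃ hh : G.Adj v u, (t ⟨s(v, u), hh⟩).1 = v := fun u hu => (mem_out.1 hu).2
    refine le_trans (card_le_card_of_injOn (t := range D)
      (fun u => if hh : G.Adj v u then ((t ⟨s(v, u), hh⟩).2 : ℕ) else 0) (fun u hu => ?_)
      fun u hu u' hu' e => ?_) (card_range D).le
    · obtain ⟨hh, -⟩ := h1 u hu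
      simp only [dif_pos hh, coe_range, Set.mem_Iio]
      exact (t _).2.2
    · obtain ⟨hh, a⟩ := h1 u hu
      obtain ⟨hh', a'⟩ := h1 u' hu'
      simp only [dif_pos hh, dif_pos hh'] at e
      have e2 := ht (Prod.ext (a.trans a'.symm) (Fin.ext e))
      exact Sym2.congr_right.1 (congrArg Subtype.val e2)

/-- Grouping the parts. -/
theorem group {J : Type} [Fintype J] {q : ℕ} (p : Fin q → ℕ) (s : ℕ) (hp : ∀ i, p i ≤ s)
    (lo : J → ℕ) (h : ∑ j, (lo j + s) ≤ ∑ i, p i) :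
    ∃ I : J → Finset (Fin q), (∀ j j', j ≠ j' → Disjoint (I j) (I j')) ∧
      ∀ j, lo j ≤ ∑ i ∈ I j, p i ∧ ∑ i ∈ I j, p i ≤ lo j + s := by
  have key : ∀ T : Finset J, ∃ I : J → Finset (Fin q), (∀ j j', j ≠ j' → Disjoint (I j) (I j')) ∧
      (∀ j ∉ T, I j = ∅) ∧ ∀ j ∈ T, lo j ≤ ∑ i ∈ I j, p i ∧ ∑ i ∈ I j, p i ≤ lo j + s := by
    intro T
    induction T using Finset.induction_on with
    | empty => exact ⟨fun _ => ∅, fun _ _ _ => disjoint_empty_left _, fun _ _ => rfl,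
        fun j hj => absurd hj (notMem_empty _)⟩
    | insert a T ha ih =>
      obtain ⟨I, h1, h2, h3⟩ := ih
      have e1 : ∑ i ∈ T.biUnion I, p i ≤ ∑ j ∈ T, (lo j + s) := by
        rw [sum_biUnion fun j _ j' _ hj => h1 j j' hj]
        exact sum_le_sum fun j hj => (h3 j hj).2
      have e2 : lo a + s + ∑ j ∈ T, (lo j + s) ≤ ∑ j, (lo j + s) := by
        rw [← sum_insert (f := fun j => lo j + s) ha]
        exact sum_le_sum_of_subset (subset_univ _)
      have e3 := sum_sdiff (f := p) (subset_univ (T.biUnion I))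
      obtain ⟨K, k1, k2, k3⟩ := exists_group p s hp (univ \ T.biUnion I) (lo a) (by omega)
      have k4 : ∀ j, j ≠ a → Disjoint K (I j) := fun j hj => by
        by_cases hT : j ∈ T
        · exact disjoint_left.2 fun i hi hi' =>
            (mem_sdiff.1 (k1 hi)).2 (mem_biUnion.2 ⟨j, hT, hi'⟩)
        · rw [h2 j hT]; exact disjoint_empty_right _
      refine ⟨fun j => if j = a then K else I j, fun j j' hj => ?_, fun j hj => ?_,
        fun j hj => ?_⟩
      · by_cases c1 : j = a <;> by_cases c2 : j' = a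
        · exact absurd (c1.trans c2.symm) hj
        · simp only [if_pos c1, if_neg c2]; exact k4 j' c2
        · simp only [if_neg c1, if_pos c2]; exact (k4 j c1).symm
        · simp only [if_neg c1, if_neg c2]; exact h1 j j' hj
      · have c1 : j ≠ a := fun e => hj (e ▸ mem_insert_self _ _)
        simp only [if_neg c1]
        exact h2 j fun e => hj (mem_insert_of_mem e)
      · by_cases c1 : j = a
        · simp only [if_pos c1]; rw [c1]; exact ⟨k2, k3⟩
        · simp only [if_neg c1]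
          exact h3 j ((mem_insert.1 hj).resolve_left c1)
  obtain ⟨I, h1, -, h3⟩ := key univ
  exact ⟨I, h1, fun j => h3 j (mem_univ _)⟩

/-- The edges of `G` at a given level. -/
def atLev {O : Type} (G : SimpleGraph V) (lev : V → V → O) (a : O) : SimpleGraph V where
  Adj u v := G.Adj u v ∧ lev u v = a ∧ lev v u = a
  symm := ⟨fun _ _ h => ⟨h.1.symm, h.2.2, h.2.1⟩⟩
  loopless := ⟨fun _ h => h.1.ne rfl⟩

/-- Galvin's theorem on every level. -/
theorem assemble {O : Type} (G : SimpleGraph V) {q : ℕ} (p : Fin q → ℕ) (c : ℕ → Fin q)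
    (L : G.edgeSet → Finset ℕ) (hL : ∀ e i, p i ≤ ((L e).filter (fun x => c x = i)).card)
    (lev : V → V → O) (hs : ∀ u v, G.Adj u v → lev u v = lev v u) (I : O → Finset (Fin q))
    (hI : ∀ a b, a ≠ b → Disjoint (I a) (I b)) (σ : O → V → Bool)
    (hσ : ∀ a, Cross (atLev G lev a) (σ a))
    (hd : ∀ a v, dg (atLev G lev a) v ≤ ∑ i ∈ I a, p i) : ColL G c L G univ := by
  have h : ∀ a, ∃ f, PC (atLev G lev a) f ∧ ∀ u v, (atLev G lev a).Adj u v →
      f u v ∈ (lst G L u v).filter fun x => c x ∈ I a := fun a =>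
    galvinP5 _ _ (σ a) (hσ a) (hd a) _ (fun u v _ => by rw [lst_symm])
      fun u v huv => card_lstP5 G p c L hL (I a) huv.1
  choose f f1 f2 using h
  have hm : ∀ u v, G.Adj u v → (atLev G lev (lev u v)).Adj u v := fun u v h =>
    ⟨h, rfl, (hs u v h).symm⟩
  refine ⟨fun u v => f (lev u v) u v, ⟨fun u v h => ?_, fun u v w h h' hne => ?_⟩,
    fun u v h => ⟨(mem_filter.1 (f2 _ u v (hm u v h))).1, mem_univ _⟩⟩
  · rw [← hs u v h]
    exact (f1 _).symm u v (hm u v h)
  · by_cases e : lev u v = lev u w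
    · have h2 := hm u w h'
      rw [← e] at h2 ⊢
      exact (f1 _).ne u v w (hm u v h) h2 hne
    · intro e'
      have a1 := (mem_filter.1 (f2 _ u v (hm u v h))).2
      have a2 := (mem_filter.1 (f2 _ u w (hm u w h'))).2
      rw [e'] at a1
      exact disjoint_left.1 (hI _ _ e) a1 a2

end Pool.Agent.MP_d20a68_co.Mad
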