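import Pool.Agent.MP_d20a68_co.Mad.Core

/-! The labels, the constants and the main theorem. -/

set_option autoImplicit false
set_option linter.unusedSectionVars false
set_option linter.unusedVariables false
open Finset
open scoped Classical

namespace Pool.Agent.MP_d20a68_co.Mad

open Pool.Agent.MP_d20a68_co Pool.Agent.MP_d20a68_co.Poly

/-- The group of labels. -/
abbrev Lab (m : ℕ) : Type := ZMod 2 × (ZMod (m + 1) → ZMod 2) × ZMod (m + 1)

variable {m : ℕ}

/-- Forced edges of level `j`. -/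
def isF (j : ZMod (m + 1)) (z : Lab m) : Prop :=
  z.1 = 0 ∧ (if h : ∃ i, z.2.1 i = 1 then h.choose else 0) = j

/-- Pool edges of level `j`. -/
def isP (j : ZMod (m + 1)) (z : Lab m) : Prop := z.1 = 1 ∧ z.2.2 = j ∧ z.2.1 j = 1

/-- Edges that no level separates. -/
def isB (z : Lab m) : Prop := z.1 = 0 ∧ z.2.1 = 0

lemma z2 (a : ZMod 2) : a = 0 ∨ a = 1 := by revert a; decide

lemma z2_ne {a b : ZMod 2} (h : b + a = 1) : decide (a = 1) ≠ decide (b = 1) := by
  revert a b; decide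

lemma isF_bit {j : ZMod (m + 1)} {z : Lab m} (h : isF j z) (hB : ¬ isB z) : z.2.1 j = 1 := by
  have h1 : ∃ i, z.2.1 i = 1 := by
    by_contra h2
    exact hB ⟨h.1, funext fun i => (z2 _).resolve_right fun e => h2 ⟨i, e⟩⟩
  have h2 := h.2
  rw [dif_pos h1] at h2
  exact h2 ▸ h1.choose_spec

lemma FP_uniq {j j' : ZMod (m + 1)} {z : Lab m} (h : isF j z ∨ isP j z) (h' : isF j' z ∨ isP j' z) :
    j = j' := by
  rcases h with h | h <;> rcases h' with h' | h'
  · exact h.2.symm.trans h'.2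
  · exact absurd (h.1.symm.trans h'.1) (by decide)
  · exact absurd (h'.1.symm.trans h.1) (by decide)
  · exact h.2.1.symm.trans h'.2.1

lemma card_lab : Fintype.card (Lab m) = 2 * (2 ^ (m + 1) * (m + 1)) := by
  simp [Lab, Fintype.card_prod, ZMod.card]

lemma den_P (j : ZMod (m + 1)) : 1 / (4 * ((m : ℝ) + 1)) ≤ den (isP j) := by
  have h : (univ : Finset (Lab m)).card ≤ ((univ.filter (isP j)) ×ˢ
      (univ : Finset (ZMod 2 × ZMod 2 × ZMod (m + 1)))).card := by
    refine card_le_card_of_injOn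
      (fun z => ((1, Function.update z.2.1 j 1, j), z.1, z.2.1 j, z.2.2)) (fun z _ => ?_)
      fun z _ z' _ e => ?_
    · simp [isP]
    · simp only [Prod.mk.injEq, true_and, and_true] at e
      refine Prod.ext e.2.1 (Prod.ext (funext fun i => ?_) e.2.2.2)
      by_cases hi : i = j
      · rw [hi]; exact e.2.2.1
      · have := congrFun e.1 i
        rwa [Function.update_of_ne hi, Function.update_of_ne hi] at this
  have h4 : Fintype.card (ZMod 2 × ZMod 2 × ZMod (m + 1)) = 2 * (2 * (m + 1)) := by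
    rw [Fintype.card_prod, Fintype.card_prod, ZMod.card, ZMod.card]
  rw [card_product, card_univ, card_univ, h4] at h
  have hc : (0 : ℝ) < Fintype.card (Lab m) := by exact_mod_cast Fintype.card_pos
  have h' : (Fintype.card (Lab m) : ℝ) ≤ (univ.filter (isP j)).card * (2 * (2 * (m + 1))) := by
    exact_mod_cast h
  unfold den
  rw [div_le_div_iff₀ (by positivity) hc]
  linarith

lemma den_B : den (isB (m := m)) ≤ 1 / 2 ^ (m + 2) := by
  have h : (univ.filter (isB (m := m))).card ≤ (univ : Finset (ZMod (m + 1))).card := by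
    refine card_le_card_of_injOn (fun z => z.2.2) (fun z _ => mem_coe.2 (mem_univ _))
      fun z hz z' hz' e => ?_
    have h1 := (mem_filter.1 (mem_coe.1 hz)).2
    have h2 := (mem_filter.1 (mem_coe.1 hz')).2
    exact Prod.ext (h1.1.trans h2.1.symm) (Prod.ext (h1.2.trans h2.2.symm) e)
  rw [card_univ, ZMod.card] at h
  have h' : ((univ.filter (isB (m := m))).card : ℝ) ≤ m + 1 := by exact_mod_cast h
  unfold den
  rw [card_lab, div_le_div_iff₀ (by positivity) (by positivity)]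
  push_cast
  have : (0 : ℝ) < 2 ^ (m + 1) := by positivity
  rw [pow_succ 2 (m + 1)]
  nlinarith

lemma den_sum_gen {Λ J : Type} [Fintype Λ] [AddCommGroup Λ] [Fintype J] (A B : J → Λ → Prop)
    (h : ∀ j z, A j z → ¬ B j z) (h' : ∀ j j' z, A j z ∨ B j z → A j' z ∨ B j' z → j = j') :
    ∑ j, (den (A j) + den (B j)) ≤ 1 := by
  have h1 : ∀ j, (univ.filter (A j)).card + (univ.filter (B j)).card =
      (univ.filter (A j) ∪ univ.filter (B j)).card := fun j =>
    (card_union_of_disjoint (disjoint_left.2 fun z h1 h2 =>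
      h j z (mem_filter.1 h1).2 (mem_filter.1 h2).2)).symm
  have h3 : ∀ j z, z ∈ univ.filter (A j) ∪ univ.filter (B j) → A j z ∨ B j z := fun j z hz =>
    (mem_union.1 hz).imp (fun e => (mem_filter.1 e).2) fun e => (mem_filter.1 e).2
  have h2 : ∑ j, (univ.filter (A j) ∪ univ.filter (B j)).card ≤ Fintype.card Λ :=
    le_trans (card_biUnion fun j _ j' _ hj => disjoint_left.2 fun z h1 h2 =>
      hj (h' j j' z (h3 j z h1) (h3 j' z h2))).ge (card_le_univ _)
  have hc : (0 : ℝ) < Fintype.card Λ := by exact_mod_cast Fintype.card_pos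
  unfold den
  simp only [← add_div]
  rw [← sum_div, div_le_one hc]
  simp only [← h1] at h2
  exact_mod_cast h2

lemma den_sum : ∑ j : ZMod (m + 1), (den (isF j) + den (isP j)) ≤ 1 :=
  den_sum_gen _ _ (fun j z h h' => absurd (h.1.symm.trans h'.1) (by decide))
    fun _ _ _ => FP_uniq

variable {V : Type} [Fintype V]

/-- The edges of `G` whose label satisfies `E`. -/
def typ (G : SimpleGraph V) (ω : V → Lab m) (E : Lab m → Prop) : SimpleGraph V where
  Adj u v := G.Adj u v ∧ E (ω v + ω u)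
  symm := ⟨fun u v h => ⟨h.1.symm, by rw [add_comm]; exact h.2⟩⟩
  loopless := ⟨fun _ h => h.1.ne rfl⟩

lemma prob_num {k L : ℕ} (hk : 0 < k) (hL : 1 ≤ L) (hkL : k < 2 ^ L) {η : ℝ}
    (hη : 36 * L * k ≤ η ^ 2) :
    2 * (((3 * L + 1 + 1) * 3 : ℕ) : ℝ) * Real.exp (-(η ^ 2 / (4 * k))) +
      k * (1 / 2 ^ (3 * L + 1 + 2)) ≤ 1 / (4 * ((k : ℝ) + 1) ^ 2) := by
  have hk' : (0 : ℝ) < k := by exact_mod_cast hk
  have hL' : (1 : ℝ) ≤ L := by exact_mod_cast hL
  set y : ℝ := 2 ^ L with hy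
  have y1 : (k : ℝ) + 1 ≤ y := by rw [hy]; exact_mod_cast hkL
  have y0 : 0 < y := by positivity
  have y2 : (L : ℝ) ≤ y := by rw [hy]; exact_mod_cast Nat.lt_two_pow_self.le
  have e1 : Real.exp (-(η ^ 2 / (4 * k))) ≤ 1 / (y ^ 3 * 256) := by
    have b1 : 9 * (L : ℝ) ≤ η ^ 2 / (4 * k) := by
      rw [le_div_iff₀ (by positivity)]
      linarith
    have b2 : y ^ 3 ≤ Real.exp (3 * L) := by
      have : y ≤ Real.exp L := by
        rw [hy, ← Real.exp_one_pow]
        exact pow_le_pow_left₀ (by norm_num) (by have := Real.exp_one_gt_d9; linarith) _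
      rw [show (3 : ℝ) * L = (3 : ℕ) * (L : ℝ) by norm_num, Real.exp_nat_mul]
      exact pow_le_pow_left₀ y0.le this 3
    have b3 : (256 : ℝ) ≤ Real.exp (6 * L) := by
      have c1 : Real.exp 6 ≤ Real.exp (6 * L) := Real.exp_le_exp.2 (by linarith)
      have c2 : (2.7 : ℝ) ^ 6 ≤ Real.exp 6 := by
        rw [show (6 : ℝ) = (6 : ℕ) * (1 : ℝ) by norm_num, Real.exp_nat_mul]
        exact pow_le_pow_left₀ (by norm_num) (by have := Real.exp_one_gt_d9; linarith) 6
      norm_num at c2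
      linarith
    rw [Real.exp_neg, ← one_div]
    refine one_div_le_one_div_of_le (by positivity) ?_
    calc y ^ 3 * 256 ≤ Real.exp (3 * L) * Real.exp (6 * L) :=
          mul_le_mul b2 b3 (by norm_num) (Real.exp_pos _).le
      _ = Real.exp (9 * L) := by rw [← Real.exp_add]; congr 1; ring
      _ ≤ _ := Real.exp_le_exp.2 b1
  have e2 : (2 : ℝ) ^ (3 * L + 1 + 2) = 8 * y ^ 3 := by rw [hy]; ring
  have e3 : 1 / (4 * y ^ 2) ≤ 1 / (4 * ((k : ℝ) + 1) ^ 2) :=
    one_div_le_one_div_of_le (by positivity) (by nlinarith)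
  have e4 : 2 * (((3 * L + 1 + 1) * 3 : ℕ) : ℝ) * Real.exp (-(η ^ 2 / (4 * k))) ≤
      (32 * y) * (1 / (y ^ 3 * 256)) :=
    mul_le_mul (by push_cast; linarith) e1 (Real.exp_pos _).le (by positivity)
  have e5 : (k : ℝ) * (1 / (8 * y ^ 3)) ≤ y * (1 / (8 * y ^ 3)) :=
    mul_le_mul_of_nonneg_right (by linarith) (by positivity)
  have e6 : (32 * y) * (1 / (y ^ 3 * 256)) + y * (1 / (8 * y ^ 3)) = 1 / (4 * y ^ 2) := by
    field_simp
    norm_num
  rw [e2]
  linarith

theorem main (k f : ℕ) (hf : 10 ^ 7 * k * (Nat.log 2 k + 1) ^ 3 ≤ f ^ 2) (G : SimpleGraph V)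
    (hD : ∀ v, dg G v ≤ k)
    (hm : ∀ A : Finset V, 2 * {e | e ∈ G.edgeSet ∧ ∀ v ∈ e, v ∈ A}.ncard + f * A.card ≤ k * A.card)
    {q : ℕ} (p : Fin q → ℕ) (hp : ∀ i, 10 ^ 7 * (Nat.log 2 k + 1) * p i ≤ k) (hpk : ∑ i, p i = k)
    (c : ℕ → Fin q) (L : G.edgeSet → Finset ℕ)
    (hL : ∀ e i, p i ≤ ((L e).filter (fun x => c x = i)).card) : ColL G c L G univ := by
  by_cases hE : ∀ u v, ¬ G.Adj u v
  · exact ⟨fun _ _ => 0, ⟨fun _ _ _ => rfl, fun u v _ h => absurd h (hE u v)⟩,
      fun u v h => absurd h (hE u v)⟩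
  obtain ⟨u0, v0, h0⟩ : ∃ u v, G.Adj u v := by
    by_contra h
    exact hE fun u v e => h ⟨u, v, e⟩
  have hk : 0 < k := lt_of_lt_of_le (card_pos.2 ⟨v0, mem_nb.2 h0⟩) (hD u0)
  have hfk : f ≤ k := by
    have := hm {u0}
    rw [card_singleton] at this
    omega
  set l := Nat.log 2 k + 1 with hl
  have l1 : 1 ≤ l := by omega
  have hkl : k < 2 ^ l := Nat.lt_pow_succ_log_self (by norm_num) k
  have hk' : (1 : ℝ) ≤ k := by exact_mod_cast hk
  have l1' : (1 : ℝ) ≤ l := by exact_mod_cast l1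
  have hf' : 10 ^ 7 * (k : ℝ) * (l : ℝ) ^ 3 ≤ (f : ℝ) ^ 2 := by exact_mod_cast hf
  have hfk' : (f : ℝ) ≤ k := by exact_mod_cast hfk
  have f0 : (0 : ℝ) ≤ f := Nat.cast_nonneg _
  have hfl : 270 * (l : ℝ) ≤ f := by
    refine (pow_le_pow_iff_left₀ (by positivity) f0 two_ne_zero).1 (le_trans ?_ hf')
    have b1 : (l : ℝ) ^ 2 ≤ k * (l : ℝ) ^ 3 := by
      calc (l : ℝ) ^ 2 = 1 * ((l : ℝ) ^ 2 * 1) := by ring
        _ ≤ (k : ℝ) * ((l : ℝ) ^ 2 * l) := by gcongr
        _ = _ := by ring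
    nlinarith
  obtain ⟨o, ho, hout⟩ := orient G ((k - f + 1) / 2) fun A => by
    have b1 := hm A
    have b2 : k - f ≤ 2 * ((k - f + 1) / 2) := by omega
    have b3 : (k - f) * A.card ≤ 2 * ((k - f + 1) / 2) * A.card := Nat.mul_le_mul_right _ b2
    have b4 : (k - f) * A.card + f * A.card = k * A.card := by
      rw [← add_mul, Nat.sub_add_cancel hfk]
    nlinarith
  set η : ℝ := f / (400 * l) with hη
  have η0 : 0 ≤ η := by positivity
  have ηl : η * (400 * l) = f := div_mul_cancel₀ _ (by positivity)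
  have η2 : 36 * (l : ℝ) * k ≤ η ^ 2 := by
    rw [hη, div_pow, le_div_iff₀ (by positivity)]
    have : (0 : ℝ) ≤ k * (l : ℝ) ^ 3 := by positivity
    nlinarith
  obtain ⟨ω, w1, w2⟩ := counts (Λ := Lab (3 * l + 1)) G k hk hD
    (T := ZMod (3 * l + 1 + 1) × Option Bool)
    (fun τ v => τ.2.elim (nb G v) fun b => if b then inn G o v else out G o v)
    (fun τ v => by
      rcases τ with ⟨j, _ | _ | _⟩
      · exact subset_rfl
      · exact filter_subset _ _
      · exact filter_subset _ _)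
    (fun τ => τ.2.elim (isF τ.1) fun _ => isP τ.1) isB η (1 / 2 ^ (3 * l + 1 + 2)) η0
    (by nlinarith) den_B (by
      rw [Fintype.card_prod, ZMod.card, Fintype.card_option, Fintype.card_bool]
      exact prob_num hk l1 hkl η2)
  set ρ0 : ℝ := 1 / (4 * (((3 * l + 1 : ℕ) : ℝ) + 1)) with hρ
  have r0 : 0 < ρ0 := by positivity
  have r1 : 1 ≤ ρ0 * (20 * l) := by
    rw [hρ, div_mul_eq_mul_div, le_div_iff₀ (by positivity)]
    push_cast
    linarith
  have hs : 10 ^ 7 * (l : ℝ) * (univ.sup p : ℕ) ≤ k := by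
    have b1 : univ.sup p ≤ k / (10 ^ 7 * l) := Finset.sup_le fun i _ =>
      (Nat.le_div_iff_mul_le (by positivity)).2 (by rw [mul_comm]; exact hp i)
    have b2 : 10 ^ 7 * l * univ.sup p ≤ k :=
      (Nat.mul_le_mul_left _ b1).trans (Nat.mul_div_le _ _)
    exact_mod_cast b2
  have s0 : (0 : ℝ) ≤ (univ.sup p : ℕ) := Nat.cast_nonneg _
  have lp : (0 : ℝ) < 20 * l := by positivity
  refine core G k hk hD o ho f η ρ0 (fun v => ?_) (fun j => typ G ω (isF j))
    (fun j => typ G ω (isP j)) (fun j _ _ h => h.1) (fun j _ _ h => h.1)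
    (fun j j' u v h h' => FP_uniq (h.imp And.right And.right) (h'.imp And.right And.right))
    (fun j u v h h' => absurd (h.2.1.symm.trans h'.2.1) (by decide))
    (fun b v => b.elim (decide ((ω v).1 = 1)) fun j => decide ((ω v).2.1 j = 1))
    (fun j u v h => ?_) (fun u v h hF => ?_) (fun j => den (isF j)) (fun j => den (isP j))
    (fun j => den_nonneg _) r0 den_P den_sum ?_ (by linarith) ?_ (fun j v => ?_) (fun j v => ?_)
    (fun j v => ?_) p (univ.sup p) (fun i => le_sup (mem_univ i)) ?_ hpk c L hL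
  · have b1 : 2 * (out G o v).card + f ≤ k + 1 := by
      have := hout v
      omega
    have b2 : 2 * ((out G o v).card : ℝ) + f ≤ k + 1 := by exact_mod_cast b1
    linarith
  · rcases h with h | h
    · exact z2_ne (isF_bit h.2 (w2 u v h.1))
    · exact z2_ne h.2.2.2
  · exact z2_ne ((z2 (ω v + ω u).1).resolve_left fun e => hF _ ⟨h, e, rfl⟩)
  · refine le_of_mul_le_mul_right ?_ lp
    nlinarith [mul_le_mul_of_nonneg_right r1 (show (0 : ℝ) ≤ k by linarith)]
  · refine le_of_mul_le_mul_right ?_ lp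
    nlinarith [mul_le_mul_of_nonneg_right r1 (show (0 : ℝ) ≤ f - 1 by linarith)]
  · have e : nb (typ G ω (isF j)) v = (nb G v).filter fun u => isF j (ω u + ω v) := by
      ext u
      simp [typ]
    unfold dg
    rw [e]
    exact w1 (j, none) v
  · have e : inn (typ G ω (isP j)) o v = (inn G o v).filter fun u => isP j (ω u + ω v) := by
      ext u
      rw [mem_filter, mem_inn, mem_inn]
      exact ⟨fun h => ⟨⟨h.1.1, h.2⟩, h.1.2⟩, fun h => ⟨⟨h.1.1, h.2⟩, h.1.2⟩⟩
    rw [e]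
    exact w1 (j, some true) v
  · have e : out (typ G ω (isP j)) o v = (out G o v).filter fun u => isP j (ω u + ω v) := by
      ext u
      rw [mem_filter, mem_out, mem_out]
      exact ⟨fun h => ⟨⟨h.1.1, h.2⟩, h.1.2⟩, fun h => ⟨⟨h.1.1, h.2⟩, h.1.2⟩⟩
    rw [e]
    exact w1 (j, some false) v
  · refine le_of_mul_le_mul_right ?_ lp
    nlinarith [mul_le_mul_of_nonneg_right r1 (show (0 : ℝ) ≤ k by linarith)]

end Pool.Agent.MP_d20a68_co.Mad
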