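import Pool.Agent.MP_d20a68_co.Mad.Det

/-! Random labels in a finite abelian group: Hoeffding's inequality and the local lemma. -/

set_option autoImplicit false
set_option linter.unusedSectionVars false
set_option linter.unusedVariables false
open Finset
open scoped Classical

namespace Pool.Agent.MP_d20a68_co.Mad

open Pool.Agent.MP_d20a68_co Pool.Agent.MP_d20a68_co.Poly

section Prob

variable {ι Ω : Type} [Fintype ι] [Fintype Ω] [Nonempty Ω]

lemma hoeff (N : Finset ι) (g : Ω → ℝ) (hg : ∀ a, |g a| ≤ 1) (h0 : ∑ a, g a = 0) (k η : ℝ)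
    (hk : 0 < k) (hN : (N.card : ℝ) ≤ k) (hη0 : 0 ≤ η) (hη : η ≤ 2 * k) :
    pr (fun ω : ι → Ω => η ≤ ∑ i ∈ N, g (ω i)) ≤ Real.exp (-(η ^ 2 / (4 * k))) := by
  set l := η / (2 * k) with hl
  have l0 : 0 ≤ l := by positivity
  have l1 : l ≤ 1 := (div_le_one (by positivity)).2 hη
  have hc : (0 : ℝ) < Fintype.card Ω := by exact_mod_cast Fintype.card_pos
  refine (pr_le_exp (fun ω : ι → Ω => ∑ i ∈ N, g (ω i)) l η l0).trans ?_
  have h1 : (fun ω : ι → Ω => Real.exp (l * ∑ i ∈ N, g (ω i))) =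
      fun ω => ∏ i ∈ N, Real.exp (l * g (ω i)) := by
    funext ω
    rw [mul_sum, Real.exp_sum]
  have h2 : ∑ a, Real.exp (l * g a) ≤ Fintype.card Ω * (1 + l ^ 2) := by
    have h3 : ∀ a, Real.exp (l * g a) ≤ (1 + l ^ 2) + l * g a := fun a => by
      have b1 : |l * g a| ≤ l := by
        rw [abs_mul, abs_of_nonneg l0]
        exact mul_le_of_le_one_right l0 (hg a)
      have b2 := (abs_le.1 (Real.abs_exp_sub_one_sub_id_le (b1.trans l1))).2
      have b3 : (l * g a) ^ 2 ≤ l ^ 2 := by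
        rw [← sq_abs (l * g a)]
        exact pow_le_pow_left₀ (abs_nonneg _) b1 2
      linarith
    refine (sum_le_sum fun a _ => h3 a).trans (le_of_eq ?_)
    rw [sum_add_distrib, ← mul_sum, h0, mul_zero, add_zero, sum_const, card_univ, nsmul_eq_mul]
  rw [h1, mean_prod_p2 N (fun a => Real.exp (l * g a))]
  have h4 : ((∑ a, Real.exp (l * g a)) / Fintype.card Ω) ^ N.card ≤ (1 + l ^ 2) ^ N.card :=
    pow_le_pow_left₀ (by positivity) (by rw [div_le_iff₀ hc, mul_comm]; exact h2) _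
  have h5 := pow_le_exp_p2 N.card (x := l ^ 2) (y := l ^ 2) (by positivity) le_rfl
  have h6 : Real.exp (l ^ 2 * N.card) ≤ Real.exp (l ^ 2 * k) :=
    Real.exp_le_exp.2 (mul_le_mul_of_nonneg_left hN (by positivity))
  refine (mul_le_mul_of_nonneg_left (h4.trans (h5.trans h6)) (Real.exp_pos _).le).trans
    (le_of_eq ?_)
  rw [← Real.exp_add, hl]
  congr 1
  field_simp
  ring

lemma pr_coord (u : ι) (B : Ω → Prop) :
    pr (fun ω : ι → Ω => B (ω u)) = ((univ.filter B).card : ℝ) / Fintype.card Ω := by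
  have h := mean_prod_p2 ({u} : Finset ι) (fun a : Ω => if B a then (1 : ℝ) else 0)
  simp only [prod_singleton, card_singleton, pow_one, sum_boole] at h
  exact h

lemma pr_exists_le {α : Type} (s : Finset α) (P : α → (ι → Ω) → Prop) (b : ℝ)
    (h : ∀ a ∈ s, pr (P a) ≤ b) : pr (fun ω => ∃ a ∈ s, P a ω) ≤ s.card * b := by
  induction s using Finset.induction_on with
  | empty =>
    rw [pr_false fun ω ⟨a, ha, _⟩ => absurd ha (notMem_empty _)]
    simp
  | insert a s ha ih =>
    have h1 : pr (fun ω => ∃ a' ∈ insert a s, P a' ω) ≤ pr (fun ω => P a ω ∨ ∃ a' ∈ s, P a' ω) :=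
      pr_mono fun ω ⟨a', ha', hP⟩ => by
        rcases mem_insert.1 ha' with rfl | e
        · exact Or.inl hP
        · exact Or.inr ⟨a', e, hP⟩
    have h2 := pr_or_le (P a) (fun ω => ∃ a' ∈ s, P a' ω)
    have h3 := h a (mem_insert_self _ _)
    have h4 := ih fun a' ha' => h a' (mem_insert_of_mem ha')
    rw [card_insert_of_notMem ha]
    push_cast
    linarith

end Prob

variable {V Λ : Type} [Fintype V] [Fintype Λ] [AddCommGroup Λ]

lemma pr_shift (v : V) (P : (V → Λ) → Prop) :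
    pr (fun ω : V → Λ => P fun u => if u = v then ω u else ω u + ω v) = pr P := by
  let e : (V → Λ) ≃ (V → Λ) :=
    { toFun := fun ω u => if u = v then ω u else ω u + ω v
      invFun := fun ω u => if u = v then ω u else ω u - ω v
      left_inv := fun ω => by
        funext u
        by_cases h : u = v <;> simp [h]
      right_inv := fun ω => by
        funext u
        by_cases h : u = v <;> simp [h] }
  unfold pr mean
  congr 1
  exact Equiv.sum_comp e fun ω => if P ω then (1 : ℝ) else 0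

theorem labels (G : SimpleGraph V) (k : ℕ) (hk : 0 < k) (hD : ∀ v, dg G v ≤ k) {T : Type}
    [Fintype T] (N : T → V → Finset V) (hN : ∀ τ v, N τ v ⊆ nb G v) (g : T → Λ → ℝ)
    (hg : ∀ τ a, |g τ a| ≤ 1) (h0 : ∀ τ, ∑ a, g τ a = 0) (Bad : Λ → Prop) (η β : ℝ) (hη0 : 0 ≤ η)
    (hη : η ≤ 2 * k) (hβ : ((univ.filter Bad).card : ℝ) / Fintype.card Λ ≤ β)
    (hp : Fintype.card T * Real.exp (-(η ^ 2 / (4 * k))) + k * β ≤ 1 / (4 * ((k : ℝ) + 1) ^ 2)) :
    ∃ ω : V → Λ, (∀ τ v, ∑ u ∈ N τ v, g τ (ω u + ω v) < η) ∧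
      ∀ v u, G.Adj v u → ¬ Bad (ω u + ω v) := by
  have hk' : (0 : ℝ) < k := by exact_mod_cast hk
  set M : ℝ := ((k : ℝ) + 1) ^ 2 with hM
  have hM1 : 1 ≤ M := by rw [hM]; nlinarith
  have hβ0 : 0 ≤ β := le_trans (by positivity) hβ
  have hx : 1 / (2 * M) ≤ 1 / 2 := one_div_le_one_div_of_le (by norm_num) (by linarith)
  obtain ⟨ω, hω⟩ := lll_P1 (univ : Finset V)
    (fun v (ω : V → Λ) => (∃ τ ∈ (univ : Finset T), η ≤ ∑ u ∈ N τ v, g τ (ω u + ω v)) ∨
      ∃ u ∈ nb G v, Bad (ω u + ω v))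
    (fun v => {u | Adj0 G v u}) (fun _ => 1 / (2 * M))
    (fun v _ ω ω' e h => by
      have ev := e v (Adj0.refl v)
      have eu : ∀ u ∈ nb G v, ω u = ω' u := fun u hu => e u (Or.inr (mem_nb.1 hu))
      rcases h with ⟨τ, hτ, h⟩ | ⟨u, hu, h⟩
      · refine Or.inl ⟨τ, hτ, h.trans (le_of_eq (sum_congr rfl fun u hu => ?_))⟩
        rw [ev, eu u (hN τ v hu)]
      · refine Or.inr ⟨u, hu, ?_⟩
        rw [← ev, ← eu u hu]
        exact h)
    (fun _ _ => by positivity) (fun _ _ => by linarith) (fun v _ => by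
      have a1 : ∀ τ ∈ (univ : Finset T), pr (fun ω : V → Λ => η ≤ ∑ u ∈ N τ v, g τ (ω u + ω v)) ≤
          Real.exp (-(η ^ 2 / (4 * k))) := fun τ _ => by
        have b1 : ((N τ v).card : ℝ) ≤ k := by
          exact_mod_cast (card_le_card (hN τ v)).trans (hD v)
        refine le_trans (pr_mono fun ω h => ?_) ((pr_shift v _).le.trans
          (hoeff (N τ v) (g τ) (hg τ) (h0 τ) k η hk' b1 hη0 hη))
        refine h.trans (le_of_eq (sum_congr rfl fun u hu => ?_))
        simp only [if_neg (mem_nb.1 (hN τ v hu)).ne']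
      have a2 : ∀ u ∈ nb G v, pr (fun ω : V → Λ => Bad (ω u + ω v)) ≤ β := fun u hu => by
        refine le_trans (pr_mono fun ω h => ?_) ((pr_shift v (fun ω => Bad (ω u))).le.trans
          ((pr_coord u Bad).le.trans hβ))
        simp only [if_neg (mem_nb.1 hu).ne']
        exact h
      have a3 := pr_exists_le _ _ _ a1
      have a4 := pr_exists_le _ _ _ a2
      have a5 : ((nb G v).card : ℝ) * β ≤ k * β :=
        mul_le_mul_of_nonneg_right (by exact_mod_cast hD v) hβ0
      rw [card_univ] at a3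
      refine (pr_or_le _ _).trans (le_trans (by linarith) (hp.trans ?_))
      rw [prod_const]
      set c := (univ.filter fun b : V =>
        ¬ Disjoint {u | Adj0 G v u} {u | Adj0 G b u}).card with hc
      have c1 : c ≤ (k + 1) ^ 2 := by
        refine le_trans (card_le_card fun w hw => ?_) (card_adj2 hD v)
        obtain ⟨x, x1, x2⟩ := Set.not_disjoint_iff.1 (mem_filter.1 hw).2
        exact mem_filter.2 ⟨mem_univ _, x, x1, Adj0.symm x2⟩
      have c2 : (c : ℝ) ≤ M := by rw [hM]; exact_mod_cast c1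
      have c3 := one_add_mul_le_pow (a := -(1 / (2 * M))) (by linarith) c
      have c4 : (c : ℝ) * (1 / (2 * M)) ≤ 1 / 2 := by
        rw [mul_one_div, div_le_iff₀ (by positivity)]
        linarith
      have c5 : 1 / 2 ≤ (1 - 1 / (2 * M)) ^ c := by
        rw [sub_eq_add_neg]
        linarith
      calc 1 / (4 * M) = 1 / (2 * M) * (1 / 2) := by field_simp; norm_num
        _ ≤ _ := mul_le_mul_of_nonneg_left c5 (by positivity))
  exact ⟨ω, fun τ v => not_le.1 fun h => hω v (mem_univ _) (Or.inl ⟨τ, mem_univ _, h⟩),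
    fun v u huv h => hω v (mem_univ _) (Or.inr ⟨u, mem_nb.2 huv, h⟩)⟩

/-- The density of a set of labels. -/
noncomputable def den (E : Λ → Prop) : ℝ := ((univ.filter E).card : ℝ) / Fintype.card Λ

lemma den_nonneg (E : Λ → Prop) : 0 ≤ den E := by unfold den; positivity

lemma den_le_one (E : Λ → Prop) : den E ≤ 1 := by
  unfold den
  refine div_le_one_of_le₀ ?_ (Nat.cast_nonneg _)
  exact_mod_cast card_le_univ _

/-- The counting form. -/
theorem counts (G : SimpleGraph V) (k : ℕ) (hk : 0 < k) (hD : ∀ v, dg G v ≤ k) {T : Type}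
    [Fintype T] (N : T → V → Finset V) (hN : ∀ τ v, N τ v ⊆ nb G v) (E : T → Λ → Prop)
    (Bad : Λ → Prop) (η β : ℝ) (hη0 : 0 ≤ η) (hη : η ≤ 2 * k) (hβ : den Bad ≤ β)
    (hp : 2 * Fintype.card T * Real.exp (-(η ^ 2 / (4 * k))) + k * β ≤
      1 / (4 * ((k : ℝ) + 1) ^ 2)) :
    ∃ ω : V → Λ, (∀ τ v, |(((N τ v).filter fun u => E τ (ω u + ω v)).card : ℝ) -
        den (E τ) * (N τ v).card| ≤ η) ∧ ∀ v u, G.Adj v u → ¬ Bad (ω u + ω v) := by
  have hc : (0 : ℝ) < Fintype.card Λ := by exact_mod_cast Fintype.card_pos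
  obtain ⟨ω, h1, h2⟩ := labels G k hk hD (T := T × Bool) (fun τ => N τ.1) (fun τ => hN τ.1)
    (fun τ a => Poly.sg τ.2 * ((if E τ.1 a then 1 else 0) - den (E τ.1)))
    (fun τ a => by
      have := den_nonneg (E τ.1)
      have := den_le_one (E τ.1)
      rw [abs_mul, Poly.abs_sg, one_mul, abs_le]
      split_ifs <;> constructor <;> linarith)
    (fun τ => by
      rw [← mul_sum, sum_sub_distrib, sum_boole, sum_const, card_univ, nsmul_eq_mul, den,
        mul_div_cancel₀ _ hc.ne', sub_self, mul_zero])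
    Bad η β hη0 hη hβ (by
      rw [Fintype.card_prod, Fintype.card_bool]
      push_cast
      linarith)
  refine ⟨ω, fun τ v => ?_, h2⟩
  have a1 := h1 (τ, true) v
  have a2 := h1 (τ, false) v
  simp only [← mul_sum, sum_sub_distrib, sum_boole, sum_const, nsmul_eq_mul, Poly.sg_true,
    Poly.sg_false] at a1 a2
  rw [abs_le]
  constructor <;> linarith

end Pool.Agent.MP_d20a68_co.Mad
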